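import Pool.Agent.V5helper14.Sep.Stm

/-!
# Project SE, job CM: from the linear form to an injective affine map
-/

set_option autoImplicit false

namespace Pool.Agent.V5helper61.SE

open Matrix Pool.Agent.V5helper14.Hel Pool.Agent.V5helper14.Sep

/-- the determinant with the last row `r` is a multiple of the orientation of the projections -/
theorem hdet_eq (k n : ℕ) (L r : Fin (k + 3) → ℝ) (X : Fin n → Fin (k + 2) → ℝ) (j : Fin (k + 2))
    (f : Fin (k + 2) → Fin n) (h : ∀ i, L ⬝ᵥ row (X (f i)) = 0) :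
    L j.succ * hdet X r f = ((-1) ^ (((Fin.last (k + 2) : Fin (k + 3)) : ℕ) + ((j.succ : Fin (k + 3)) : ℕ)) * (L ⬝ᵥ r)) *
      orient (fun i l => X i (j.succAbove l)) f := by
  unfold hdet
  obtain ⟨M, hM⟩ : ∃ M : Matrix (Fin (k + 3)) (Fin (k + 3)) ℝ, M = Matrix.of
    (Fin.snoc (α := fun _ => Fin (k + 3) → ℝ) (fun i => row (X (f i))) r) := ⟨_, rfl⟩
  have hlast : M (Fin.last (k + 2)) = r := by
    rw [hM]
    show (Fin.snoc (α := fun _ => Fin (k + 3) → ℝ) (fun i => row (X (f i))) r : Fin (k + 3) → _) (Fin.last _) = r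
    rw [Fin.snoc_last]
  have hcast : ∀ i : Fin (k + 2), M i.castSucc = row (X (f i)) := by
    intro i
    rw [hM]
    show (Fin.snoc (α := fun _ => Fin (k + 3) → ℝ) (fun i => row (X (f i))) r : Fin (k + 3) → _) i.castSucc = _
    rw [Fin.snoc_castSucc]
  rw [← hM]
  have h1 := Matrix.det_updateCol_sum M j.succ L
  rw [smul_eq_mul] at h1
  rw [← h1, Matrix.det_succ_column _ j.succ]
  rw [Finset.sum_eq_single (Fin.last (k + 2))]
  · have e1 : (M.updateCol j.succ fun k_1 => ∑ i, L i • M k_1 i) (Fin.last (k + 2)) j.succ = L ⬝ᵥ r := by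
      rw [Matrix.updateCol_self]
      simp only [smul_eq_mul]
      rw [hlast]
      rfl
    rw [e1]
    congr 1
    unfold orient
    congr 1
    ext i l
    rw [Matrix.submatrix_apply, Fin.succAbove_last, Matrix.updateCol_ne (Fin.succAbove_ne _ _), hcast,
      Matrix.of_apply]
    refine Fin.cases ?_ (fun l => ?_) l
    · rw [Fin.succ_succAbove_zero]
      rfl
    · rw [Fin.succ_succAbove_succ]
      rfl
  · intro i _ hi
    obtain ⟨i', rfl⟩ : ∃ i' : Fin (k + 2), i'.castSucc = i := ⟨i.castPred hi, by simp⟩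
    have e1 : (M.updateCol j.succ fun k_1 => ∑ i, L i • M k_1 i) i'.castSucc j.succ = 0 := by
      rw [Matrix.updateCol_self]
      simp only [smul_eq_mul]
      rw [hcast]
      exact h i'
    rw [e1]
    simp
  · intro hh
    exact absurd (Finset.mem_univ _) hh

/-- scaling of the coordinates -/
theorem orient_scale (k n : ℕ) (w : Fin (k + 1) → ℝ) (x : Fin n → Fin (k + 1) → ℝ) (f : Fin (k + 2) → Fin n) :
    orient (fun i l => w l * x i l) f = (∏ l, w l) * orient x f := by
  unfold orient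
  have h := Matrix.det_mul_row (Fin.cons 1 w : Fin (k + 2) → ℝ)
    (Matrix.of fun i : Fin (k + 2) => (Fin.cons 1 (x (f i)) : Fin (k + 2) → ℝ))
  rw [Fin.prod_univ_succ] at h
  simp only [Fin.cons_zero, Fin.cons_succ, one_mul] at h
  rw [← h]
  congr 1
  ext i l
  refine Fin.cases ?_ (fun l => ?_) l
  · simp
  · simp

theorem t_CM : S_CM := by
  intro k n a p B hC
  obtain ⟨L, r, X, hL, hLr, hX, hs⟩ := hC
  obtain ⟨j, hj⟩ : ∃ j : Fin (k + 2), L j.succ ≠ 0 := by
    by_contra hcon
    push Not at hcon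
    exact hL (funext fun j => hcon j)
  obtain ⟨D, hD⟩ : ∃ D : ℝ, D = ((-1) ^ (((Fin.last (k + 2) : Fin (k + 3)) : ℕ) + ((j.succ : Fin (k + 3)) : ℕ)) * (L ⬝ᵥ r)) /
    L j.succ := ⟨_, rfl⟩
  have hD0 : D ≠ 0 := by
    rw [hD]
    exact div_ne_zero (mul_ne_zero (pow_ne_zero _ (by norm_num)) hLr) hj
  have hdet' : ∀ f : Fin (k + 2) → Fin n, (∀ i, f i ∈ B) →
      hdet X r f = D * orient (fun i l => X i (j.succAbove l)) f := by
    intro f hf
    have h1 := hdet_eq k n L r X j f (fun i => (hX _ (hf i)).2)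
    rw [hD, div_mul_eq_mul_div, eq_div_iff hj, ← h1, mul_comm]
  obtain ⟨s, hs1, hsD⟩ : ∃ s : ℝ, s * s = 1 ∧ 0 < s * D := by
    rcases lt_or_gt_of_ne hD0 with h | h
    · exact ⟨-1, by norm_num, by linarith⟩
    · exact ⟨1, by norm_num, by linarith⟩
  obtain ⟨w, hw⟩ : ∃ w : Fin (k + 1) → ℝ, w = fun l => if l = 0 then s else 1 := ⟨_, rfl⟩
  have hww : ∀ l, w l * w l = 1 := by
    intro l
    rw [hw]
    show (if l = 0 then s else 1) * (if l = 0 then s else 1) = 1
    split_ifs
    · exact hs1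
    · norm_num
  have hwp : ∏ l, w l = s := by
    rw [hw, Finset.prod_ite_eq' Finset.univ (0 : Fin (k + 1)) (fun _ => s)]
    simp
  have hw0 : ∀ l, w l ≠ 0 := by
    intro l h0
    have := hww l
    rw [h0] at this
    norm_num at this
  obtain ⟨ell, hell⟩ : ∃ ell : (Fin (k + 1) → ℝ) →ₗ[ℝ] ℝ, ell =
      (-(L j.succ)⁻¹) • ∑ l, (L (j.succAbove l).succ * w l) • LinearMap.proj (R := ℝ) (φ := fun _ => ℝ) l := ⟨_, rfl⟩
  have hellv : ∀ v, ell v = -(L j.succ)⁻¹ * ∑ l, L (j.succAbove l).succ * w l * v l := by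
    intro v
    rw [hell]
    simp [LinearMap.sum_apply]
  obtain ⟨lin, hlin⟩ : ∃ lin : (Fin (k + 1) → ℝ) →ₗ[ℝ] (Fin (k + 2) → ℝ), lin =
      LinearMap.pi (j.insertNth (α := fun _ => (Fin (k + 1) → ℝ) →ₗ[ℝ] ℝ) ell
        (fun l => w l • LinearMap.proj (R := ℝ) (φ := fun _ => ℝ) l)) := ⟨_, rfl⟩
  have hlinj : ∀ v, lin v j = ell v := by
    intro v
    rw [hlin, LinearMap.pi_apply, Fin.insertNth_apply_same]
  have hlins : ∀ v l, lin v (j.succAbove l) = w l * v l := by
    intro v l
    rw [hlin, LinearMap.pi_apply, Fin.insertNth_apply_succAbove]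
    simp
  obtain ⟨φ, hφ⟩ : ∃ φ : (Fin (k + 1) → ℝ) →ᵃ[ℝ] (Fin (k + 2) → ℝ), φ =
      lin.toAffineMap + AffineMap.const ℝ (Fin (k + 1) → ℝ)
        (Pi.single j (-(L j.succ)⁻¹ * L 0) : Fin (k + 2) → ℝ) := ⟨_, rfl⟩
  have hφj : ∀ v, φ v j = ell v + -(L j.succ)⁻¹ * L 0 := by
    intro v
    rw [hφ]
    show lin v j + (Pi.single j (-(L j.succ)⁻¹ * L 0) : Fin (k + 2) → ℝ) j = _
    rw [hlinj, Pi.single_eq_same]
  have hφs : ∀ v l, φ v (j.succAbove l) = w l * v l := by
    intro v l
    rw [hφ]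
    show lin v (j.succAbove l) + (Pi.single j (-(L j.succ)⁻¹ * L 0) : Fin (k + 2) → ℝ) (j.succAbove l) = _
    rw [hlins, Pi.single_eq_of_ne (Fin.succAbove_ne j l), add_zero]
  refine ⟨φ, ?_, fun i l => w l * X i (j.succAbove l), ?_, ?_⟩
  · intro u v huv
    funext l
    have h1 := congrFun huv (j.succAbove l)
    rw [hφs, hφs] at h1
    exact mul_left_cancel₀ (hw0 l) h1
  · intro i hi
    have hXi := hX i hi
    have h1 : φ (fun l => w l * X i (j.succAbove l)) = X i := by
      funext m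
      rcases eq_or_ne m j with rfl | hm
      · rw [hφj, hellv]
        have h2 : L ⬝ᵥ row (X i) = L 0 + (L m.succ * X i m + ∑ l, L (m.succAbove l).succ * X i (m.succAbove l)) := by
          unfold Pool.Agent.V5helper14.Sep.row dotProduct
          rw [Fin.sum_univ_succ]
          simp only [Fin.cons_zero, Fin.cons_succ, mul_one]
          rw [Fin.sum_univ_succAbove _ m]
        rw [hXi.2] at h2
        have h3 : ∑ l, L (m.succAbove l).succ * w l * (w l * X i (m.succAbove l)) =
            ∑ l, L (m.succAbove l).succ * X i (m.succAbove l) := by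
          apply Finset.sum_congr rfl
          intro l _
          have := hww l
          linear_combination (L (m.succAbove l).succ * X i (m.succAbove l)) * this
        rw [h3]
        field_simp
        linarith
      · obtain ⟨l, rfl⟩ := Fin.exists_succAbove_eq hm
        rw [hφs, ← mul_assoc, hww, one_mul]
    rw [h1]
    exact hXi.1
  · intro f hf hfB
    rw [← hs f hf hfB, hdet' f hfB, orient_scale k n w (fun i l => X i (j.succAbove l)) f, hwp, sign_mul,
      sign_mul]
    congr 1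
    rcases lt_or_gt_of_ne hD0 with h | h
    · have : s < 0 := by
        by_contra hc
        push Not at hc
        nlinarith
      rw [sign_neg this, sign_neg h]
    · have : 0 < s := by
        by_contra hc
        push Not at hc
        nlinarith
      rw [sign_pos this, sign_pos h]

end Pool.Agent.V5helper61.SE
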